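import Pool.Agent.N20.EN.Stm
import Pool.Agent.Y286.NV.Fin
import Pool.Agent.Y171.NV.Kfin
import Pool.Agent.Y63.KR.Basic

/-!
# Project EN (helper20), leaf CNT (helper706): the weighted sum counts the classes of pairs
-/

set_option autoImplicit false
set_option linter.unusedSectionVars false

open scoped Classical BigOperators

noncomputable section

namespace Pool.Agent.N706.ENCNTO

open Pool.Agent.Y63.NV
open Pool.Agent.Y63.KR
open Pool.Agent.Y63.AWC (IsIrreducibleCharacter pSubgroupSetoid)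
open Pool.Agent.N20.EN

/-- counting of orbits for an action given by relations -/
theorem count {K : Type} [Group K] [Finite K] (H : Subgroup K) {X : Type} [Fintype X]
    (R : K → X → X → Prop) (r : X → X → Prop) (hr : ∀ x y, r x y ↔ ∃ k ∈ H, R k x y)
    (ex : ∀ k ∈ H, ∀ x, ∃ y, R k x y) (un : ∀ k ∈ H, ∀ x y y', R k x y → R k x y' → y = y')
    (one : ∀ x, R 1 x x)
    (mul : ∀ k ∈ H, ∀ l ∈ H, ∀ x y w, R k x y → R l y w → R (l * k) x w) :
    (Nat.card H : ℤ) * (Nat.card (Quot r) : ℤ) =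
      ∑ x : X, (Nat.card {k : K // k ∈ H ∧ R k x x} : ℤ) := by
  let act : MulAction H X :=
    { smul := fun k x => (ex k.1 k.2 x).choose
      one_smul := fun x => un 1 H.one_mem x _ _ (ex 1 H.one_mem x).choose_spec (one x)
      mul_smul := fun k l x => un (k.1 * l.1) (H.mul_mem k.2 l.2) x _ _
        (ex (k * l).1 (k * l).2 x).choose_spec
        (mul l.1 l.2 k.1 k.2 x _ _ (ex l.1 l.2 x).choose_spec (ex k.1 k.2 _).choose_spec) }
  have smul_iff : ∀ (k : H) (x y : X), k • x = y ↔ R k.1 x y := by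
    intro k x y
    constructor
    · rintro rfl
      exact (ex k.1 k.2 x).choose_spec
    · intro h
      exact un k.1 k.2 x _ _ (ex k.1 k.2 x).choose_spec h
  have hr' : ∀ x y, r x y ↔ ∃ k : H, k • x = y := by
    intro x y
    rw [hr]
    constructor
    · rintro ⟨k, hk, h⟩
      exact ⟨⟨k, hk⟩, (smul_iff _ _ _).2 h⟩
    · rintro ⟨k, h⟩
      exact ⟨k.1, k.2, (smul_iff _ _ _).1 h⟩
  let s : Setoid X :=
    { r := r
      iseqv :=
        { refl := fun x => (hr' x x).2 ⟨1, one_smul _ _⟩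
          symm := fun {x y} h => by
            obtain ⟨k, rfl⟩ := (hr' x y).1 h
            exact (hr' _ _).2 ⟨k⁻¹, inv_smul_smul _ _⟩
          trans := fun {x y w} h h' => by
            obtain ⟨k, rfl⟩ := (hr' x y).1 h
            obtain ⟨l, rfl⟩ := (hr' _ w).1 h'
            exact (hr' _ _).2 ⟨l * k, mul_smul _ _ _⟩ } }
  have key := orbit_sum (G := H) (Ω := X) s hr' (fun _ => (1 : ℤ)) (fun _ _ _ => rfl)
  have hq : Finite (Quotient s) := inferInstance
  have _i : Fintype (Quotient s) := Fintype.ofFinite _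
  have e1 : ∑ᶠ c : Quotient s, (1 : ℤ) = (Nat.card (Quot r) : ℤ) := by
    rw [finsum_eq_sum_of_fintype, Finset.sum_const, nsmul_eq_mul, mul_one, Finset.card_univ,
      ← Nat.card_eq_fintype_card]
    rfl
  rw [e1] at key
  rw [key]
  refine Finset.sum_congr rfl fun x _ => ?_
  rw [mul_one]
  congr 1
  refine Nat.card_congr
    { toFun := fun k => ⟨k.1.1, k.1.2, (smul_iff _ _ _).1 k.2⟩
      invFun := fun k => ⟨⟨k.1, k.2.1⟩, (smul_iff _ _ _).2 k.2.2⟩
      left_inv := fun k => rfl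
      right_inv := fun k => rfl }

section

variable {p : ℕ} {F : Type} [Field F] {red : integralClosure ℤ ℂ →+* F} {K : Type} [Group K]
  {G M : Subgroup K} {z : K → F} {c : F}

/-- the group of the weights -/
abbrev NM (M Q : Subgroup K) : Subgroup K := M ⊓ Subgroup.normalizer (Q : Set K)

theorem norm_conj (k : K) (Q : Subgroup K) {x : K} :
    x ∈ Subgroup.normalizer ((conjSub k Q : Subgroup K) : Set K) ↔
      k⁻¹ * x * k ∈ Subgroup.normalizer (Q : Set K) := by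
  rw [← conjSub_eq_iff, ← conjSub_eq_iff]
  constructor
  · intro h
    apply conjSub_injective k
    rw [← conjSub_mul]
    have e : k * (k⁻¹ * x * k) = x * k := by group
    rw [e, conjSub_mul, h]
  · intro h
    have e : x = k * (k⁻¹ * x * k) * k⁻¹ := by group
    rw [e, conjSub_mul, conjSub_inv_conjSub, conjSub_mul, h]

theorem norm_conj' (k : K) (Q : Subgroup K) {x : K} :
    k * x * k⁻¹ ∈ Subgroup.normalizer ((conjSub k Q : Subgroup K) : Set K) ↔
      x ∈ Subgroup.normalizer (Q : Set K) := by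
  rw [norm_conj]
  have e : k⁻¹ * (k * x * k⁻¹) * k = x := by group
  rw [e]

theorem conj_M [hM : M.Normal] (k : K) {x : K} : k⁻¹ * x * k ∈ M ↔ x ∈ M := by
  constructor
  · intro h
    have := hM.conj_mem _ h k
    have e : k * (k⁻¹ * x * k) * k⁻¹ = x := by group
    rwa [e] at this
  · intro h
    have := hM.conj_mem _ h k⁻¹
    rwa [inv_inv] at this

/-- conjugation -/
def eE [M.Normal] (k : K) (Q : Subgroup K) : NM M (conjSub k Q) ≃* NM M Q where
  toFun y := ⟨k⁻¹ * y * k, (conj_M k).2 y.2.1, (norm_conj k Q).1 y.2.2⟩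
  invFun x := ⟨k * x * k⁻¹, by
    have h1 := (conj_M (M := M) k⁻¹).2 x.2.1
    rwa [inv_inv] at h1, (norm_conj' k Q).2 x.2.2⟩
  left_inv y := by
    refine Subtype.ext ?_
    show k * (k⁻¹ * y * k) * k⁻¹ = y
    group
  right_inv x := by
    refine Subtype.ext ?_
    show k⁻¹ * (k * x * k⁻¹) * k = x
    group
  map_mul' y w := by
    refine Subtype.ext ?_
    show k⁻¹ * (y * w) * k = (k⁻¹ * y * k) * (k⁻¹ * w * k)
    group

/-- the pairs -/
abbrev Om (p : ℕ) (red : integralClosure ℤ ℂ →+* F) (G M : Subgroup K) (z : K → F) (c : F) :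
    Type :=
  {s : (Σ Q : Subgroup K, (↥(M ⊓ Subgroup.normalizer (Q : Set K)) → ℂ)) //
    IsPGroup p s.1 ∧ G ⊔ s.1 = M ∧
      IsWt p (s.1.subgroupOf (M ⊓ Subgroup.normalizer (s.1 : Set K))) s.2 ∧
      centralValue red s.2 (fun x => z x) = c}

/-- conjugation of pairs -/
def MapK (k : K) (s s' : Om p red G M z c) : Prop :=
  s'.1.1 = conjSub k s.1.1 ∧
    ∀ (x : ↥(M ⊓ Subgroup.normalizer (s.1.1 : Set K)))
      (y : ↥(M ⊓ Subgroup.normalizer (s'.1.1 : Set K))), (y : K) = k * x * k⁻¹ →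
        s'.1.2 y = s.1.2 x

theorem sup_conj [hG : G.Normal] [hM : M.Normal] (k : K) {Q : Subgroup K} (h : G ⊔ Q = M) :
    G ⊔ conjSub k Q = M := by
  have e : ∀ N : Subgroup K, N.Normal → conjSub k N = N := fun N hN =>
    conjSub_eq_iff.2 (by
      rw [Subgroup.normalizer_eq_top_iff.2 hN]
      trivial)
  have h1 : conjSub k (G ⊔ Q) = conjSub k G ⊔ conjSub k Q := Subgroup.map_sup _ _ _
  rw [h, e M hM, e G hG] at h1
  exact h1.symm

theorem ex_conj [Finite K] [G.Normal] [M.Normal] (hz : InZ G z) (k : K)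
    (s : Om p red G M z c) : ∃ s', MapK k s s' := by
  obtain ⟨⟨Q, θ⟩, h1, h2, h3, h4⟩ := s
  refine ⟨⟨⟨conjSub k Q, fun y => θ (eE k Q y)⟩, h1.map _, sup_conj k h2, ?_, ?_⟩, rfl, ?_⟩
  · refine Pool.Agent.Y286.NV.isWt_comp (eE k Q) (fun x => ?_) h3
    rw [Subgroup.mem_subgroupOf, Subgroup.mem_subgroupOf, mem_conjSub]
    exact Iff.rfl
  · have h5 := Pool.Agent.Y286.NV.centralValue_comp red (eE (M := M) k Q) θ
      (Pool.Agent.Y286.NV.irr_class h3.irr) (fun x => z x) (fun a x => hz.conj a x)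
    have h6 : (fun y : NM M (conjSub k Q) => z (y : K)) = fun y => z (eE k Q y : K) := by
      funext y
      have h7 := hz.conj k⁻¹ y
      rw [inv_inv] at h7
      exact h7.symm
    change centralValue red (fun y => θ (eE k Q y)) (fun y : NM M (conjSub k Q) => z (y : K)) = c
    rw [h6]
    exact h5.trans h4
  · intro x y hxy
    change θ (eE k Q y) = θ x
    congr 1
    refine Subtype.ext ?_
    show k⁻¹ * (y : K) * k = x
    rw [hxy]
    group

theorem un_conj [M.Normal] (k : K) (s s' s'' : Om p red G M z c) (h : MapK k s s')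
    (h' : MapK k s s'') : s' = s'' := by
  obtain ⟨⟨Q', θ'⟩, hs'⟩ := s'
  obtain ⟨⟨Q'', θ''⟩, hs''⟩ := s''
  have h1 : Q' = Q'' := h.1.trans h'.1.symm
  subst h1
  have h2 : θ' = θ'' := by
    funext y
    have hQ : Q' = conjSub k s.1.1 := h.1
    have hy : k⁻¹ * (y : K) * k ∈ M ⊓ Subgroup.normalizer (s.1.1 : Set K) := by
      refine ⟨(conj_M k).2 y.2.1, (norm_conj k s.1.1).1 ?_⟩
      rw [← hQ]
      exact y.2.2
    have e : (y : K) = k * (k⁻¹ * (y : K) * k) * k⁻¹ := by group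
    exact (h.2 ⟨_, hy⟩ y e).trans (h'.2 ⟨_, hy⟩ y e).symm
  subst h2
  rfl

theorem one_conj (s : Om p red G M z c) : MapK 1 s s := by
  refine ⟨(conjSub_one _).symm, fun x y hxy => ?_⟩
  have e : y = x := Subtype.ext (by rw [hxy]; group)
  rw [e]

theorem mul_conj [hM : M.Normal] (k l : K) (s s' s'' : Om p red G M z c) (h : MapK k s s')
    (h' : MapK l s' s'') : MapK (l * k) s s'' := by
  refine ⟨by rw [h'.1, h.1, conjSub_mul], fun x y hxy => ?_⟩
  have hw : k * (x : K) * k⁻¹ ∈ M ⊓ Subgroup.normalizer (s'.1.1 : Set K) := by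
    refine ⟨hM.conj_mem _ x.2.1 k, ?_⟩
    rw [h.1]
    exact (norm_conj' k _).2 x.2.2
  have e1 := h.2 x ⟨_, hw⟩ rfl
  have e2 := h'.2 ⟨_, hw⟩ y (by
    rw [hxy]
    show l * k * (x : K) * (l * k)⁻¹ = l * (k * (x : K) * k⁻¹) * l⁻¹
    group)
  rw [e2, e1]

/-- the weights for the subgroup `Q` -/
abbrev WQ (p : ℕ) (red : integralClosure ℤ ℂ →+* F) (M Q : Subgroup K) (z : K → F) (c : F) :
    Type := WtJ p red (NM M Q) Q z c

theorem fin_WQ [Finite K] (Q : Subgroup K) : Finite (WQ p red M Q z c) := by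
  have hX := Pool.Agent.Y171.NV.irr_fin (NM M Q)
  exact Finite.of_injective (fun χ : WQ p red M Q z c =>
    (⟨χ.1, χ.2.1.irr⟩ : {χ : NM M Q → ℂ // IsIrreducibleCharacter χ}))
    (fun a b h => Subtype.ext (congrArg (fun t => t.1) h))

/-- pairs as a sigma type -/
def pE : (Σ Q : {Q : Subgroup K // IsPGroup p Q ∧ G ⊔ Q = M}, WQ p red M Q.1 z c) ≃
    Om p red G M z c where
  toFun s := ⟨⟨s.1.1, s.2.1⟩, s.1.2.1, s.1.2.2, s.2.2.1, s.2.2.2⟩
  invFun s := ⟨⟨s.1.1, s.2.1, s.2.2.1⟩, ⟨s.1.2, s.2.2.2.1, s.2.2.2.2⟩⟩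
  left_inv _ := rfl
  right_inv _ := rfl

/-- the orbits for one subgroup -/
theorem orb_one [Finite K] [G.Normal] [M.Normal] (hz : InZ G z) (Q : Subgroup K)
    (h1 : IsPGroup p Q) (h2 : G ⊔ Q = M) [Fintype (WQ p red M Q z c)] :
    (Nat.card ↥(⊤ ⊓ Subgroup.normalizer (Q : Set K)) : ℤ) *
      OrbW p red M (⊤ ⊓ Subgroup.normalizer (Q : Set K)) Q z c =
    ∑ ξ : WQ p red M Q z c, (Nat.card {k : K // k ∈ Subgroup.normalizer (Q : Set K) ∧
      CjF k ξ.1 ξ.1} : ℤ) := by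
  have hJ : (⊤ : Subgroup K) ⊓ Subgroup.normalizer (Q : Set K) = Subgroup.normalizer (Q : Set K) :=
    top_inf_eq _
  rw [hJ]
  unfold OrbW
  have hQk : ∀ k ∈ Subgroup.normalizer (Q : Set K), conjSub k Q = Q := fun k hk =>
    conjSub_eq_iff.2 hk
  refine count (Subgroup.normalizer (Q : Set K)) (X := WQ p red M Q z c)
    (fun k (ξ ξ' : WQ p red M Q z c) => CjF k ξ.1 ξ'.1) _
    (fun _ _ => Iff.rfl) ?_ ?_ ?_ ?_
  · intro k hk ξ
    obtain ⟨⟨⟨Q', θ'⟩, g1, g2, g3, g4⟩, hs1, hs2⟩ := ex_conj (p := p) (red := red) (G := G)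
      (M := M) (z := z) (c := c) hz k ⟨⟨Q, ξ.1⟩, h1, h2, ξ.2.1, ξ.2.2⟩
    have e : Q' = Q := hs1.trans (hQk k hk)
    subst e
    exact ⟨⟨θ', g3, g4⟩, fun x y hxy => hs2 x y hxy⟩
  · intro k hk ξ ξ' ξ'' h h'
    refine Subtype.ext (funext fun y => ?_)
    have hy : k⁻¹ * (y : K) * k ∈ NM M Q := by
      refine ⟨(conj_M k).2 y.2.1, (norm_conj k Q).1 ?_⟩
      rw [hQk k hk]
      exact y.2.2
    have e : (y : K) = k * (k⁻¹ * (y : K) * k) * k⁻¹ := by group
    exact (h ⟨_, hy⟩ y e).trans (h' ⟨_, hy⟩ y e).symm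
  · intro ξ x y hxy
    have e : y = x := Subtype.ext (by rw [hxy]; group)
    rw [e]
  · intro k hk l hl ξ ξ' ξ'' h h' x y hxy
    have hw : k * (x : K) * k⁻¹ ∈ NM M Q := by
      refine ⟨Subgroup.Normal.conj_mem inferInstance _ x.2.1 k, ?_⟩
      have := (norm_conj' k Q).2 x.2.2
      rwa [hQk k hk] at this
    have e1 := h x ⟨_, hw⟩ rfl
    have e2 := h' ⟨_, hw⟩ y (by
      rw [hxy]
      show l * k * (x : K) * (l * k)⁻¹ = l * (k * (x : K) * k⁻¹) * l⁻¹
      group)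
    rw [e2, e1]

end

theorem CNTO : S_CNTO := by
  intro p _ F _ red K _ _ G M _ _ z hz c
  have _f1 : ∀ Q : Subgroup K, Finite (WQ p red M Q z c) := fun Q => fin_WQ Q
  have _i1 : ∀ Q : Subgroup K, Fintype (WQ p red M Q z c) := fun Q => Fintype.ofFinite _
  have _i2 : Fintype {Q : Subgroup K // IsPGroup p Q ∧ G ⊔ Q = M} := Fintype.ofFinite _
  have _i3 : Fintype (Om p red G M z c) := Fintype.ofEquiv _ pE
  have hR := count (⊤ : Subgroup K) (X := Om p red G M z c) MapK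
    (fun s s' => ∃ k : K, s'.1.1 = conjSub k s.1.1 ∧
        ∀ (x : ↥(M ⊓ Subgroup.normalizer (s.1.1 : Set K)))
          (y : ↥(M ⊓ Subgroup.normalizer (s'.1.1 : Set K))), (y : K) = k * x * k⁻¹ →
            s'.1.2 y = s.1.2 x)
    (fun s s' => ⟨fun ⟨k, h⟩ => ⟨k, trivial, h⟩, fun ⟨k, _, h⟩ => ⟨k, h⟩⟩)
    (fun k _ s => ex_conj hz k s) (fun k _ s s' s'' => un_conj k s s' s'') one_conj
    (fun k _ l _ s s' s'' => mul_conj k l s s' s'')
  have hT : (Nat.card (⊤ : Subgroup K) : ℤ) = Nat.card K := by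
    rw [Subgroup.card_top]
  rw [hT] at hR
  refine Eq.trans ?_ hR.symm
  rw [← Equiv.sum_comp (pE (p := p) (red := red) (G := G) (M := M) (z := z) (c := c)),
    Fintype.sum_sigma]
  unfold WsK
  have hc : ∀ Q : Subgroup K, (IsPGroup p Q ∧ Q ≤ ⊤ ∧ G ⊔ Q = M) ↔ (IsPGroup p Q ∧ G ⊔ Q = M) :=
    fun Q => ⟨fun h => ⟨h.1, h.2.2⟩, fun h => ⟨h.1, le_top, h.2⟩⟩
  simp only [hc]
  have hs : ∑ᶠ Q : Subgroup K, (if IsPGroup p Q ∧ G ⊔ Q = M then
      (Nat.card ↥(⊤ ⊓ Subgroup.normalizer (Q : Set K)) : ℤ) *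
        OrbW p red M (⊤ ⊓ Subgroup.normalizer (Q : Set K)) Q z c else 0) =
      ∑ Q : {Q : Subgroup K // IsPGroup p Q ∧ G ⊔ Q = M},
        (Nat.card ↥(⊤ ⊓ Subgroup.normalizer (Q.1 : Set K)) : ℤ) *
        OrbW p red M (⊤ ⊓ Subgroup.normalizer (Q.1 : Set K)) Q.1 z c := by
    rw [← finsum_eq_sum_of_fintype, finsum_subtype_eq_finsum_cond
      (fun Q : Subgroup K => IsPGroup p Q ∧ G ⊔ Q = M)
      (f := fun Q : Subgroup K => (Nat.card ↥(⊤ ⊓ Subgroup.normalizer (Q : Set K)) : ℤ) *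
        OrbW p red M (⊤ ⊓ Subgroup.normalizer (Q : Set K)) Q z c)]
    refine finsum_congr fun Q => ?_
    rw [finsum_eq_if]
  rw [hs]
  refine Finset.sum_congr rfl fun Q _ => ?_
  rw [orb_one hz Q.1 Q.2.1 Q.2.2]
  refine Finset.sum_congr rfl fun ξ _ => ?_
  congr 1
  refine Nat.card_congr (Equiv.subtypeEquivRight fun k => ?_)
  constructor
  · rintro ⟨h1, h2⟩
    exact ⟨trivial, (conjSub_eq_iff.2 h1).symm, fun x y hxy => h2 x y hxy⟩
  · rintro ⟨_, h1, h2⟩
    exact ⟨conjSub_eq_iff.1 h1.symm, fun x y hxy => h2 x y hxy⟩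

end Pool.Agent.N706.ENCNTO

end
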