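import Pool.Agent.N576.MX2.D

set_option autoImplicit false

/-!
# MX2/PAIR and MX2/UNITSEP (helper706)
-/

namespace Pool.Agent.N706.MX2P

open Pool.Agent.N576.MX2

/-- the conjugates of the unit, `s = 1` or `s = -1` -/
noncomputable def Lam (u : ℤ) (s : ℝ) : ℝ := (3 * u + s * Real.sqrt (9 * (u : ℝ) ^ 2 - 4)) / 2

/-- the root of the discriminant -/
noncomputable def rt (u : ℤ) : ℝ := Real.sqrt (9 * (u : ℝ) ^ 2 - 4)

/-- the conjugates of `WW` -/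
noncomputable def Wg (u i j : ℤ) (s : ℝ) : ℝ := i * Lam u s + j * Lam u (-s)

lemma rt_sq {u : ℤ} (hu : 1 ≤ u) : rt u ^ 2 = 9 * (u : ℝ) ^ 2 - 4 := by
  have h : (1 : ℝ) ≤ u := by exact_mod_cast hu
  exact Real.sq_sqrt (by nlinarith)

lemma rt_pos {u : ℤ} (hu : 1 ≤ u) : 0 < rt u := by
  have h : (1 : ℝ) ≤ u := by exact_mod_cast hu
  exact Real.sqrt_pos.2 (by nlinarith)

lemma lam_one (u : ℤ) : la u = Lam u 1 := by
  unfold la Lam; rw [one_mul]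

lemma lam_mul {u : ℤ} (hu : 1 ≤ u) {s : ℝ} (hs : s ^ 2 = 1) : Lam u s * Lam u (-s) = 1 := by
  have h := rt_sq hu
  unfold rt at h
  unfold Lam
  nlinarith [h, hs, congrArg (fun x => x * (9 * (u : ℝ) ^ 2 - 4)) hs]

lemma lam_inv {u : ℤ} (hu : 1 ≤ u) : (la u)⁻¹ = Lam u (-1) := by
  rw [lam_one]
  exact inv_eq_of_mul_eq_one_right (lam_mul hu (by norm_num))

lemma la_gt {u : ℤ} (hu : 1 ≤ u) : 1 < la u := by
  have h : (1 : ℝ) ≤ u := by exact_mod_cast hu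
  have h1 := rt_pos hu
  unfold rt at h1
  unfold la
  linarith

lemma lam_sq {u : ℤ} (hu : 1 ≤ u) {s : ℝ} (hs : s ^ 2 = 1) :
    Lam u s ^ 2 = 3 * u * Lam u s - 1 := by
  have h := lam_mul hu hs
  have h2 : Lam u (-s) = 3 * u - Lam u s := by unfold Lam; ring
  rw [h2] at h
  linarith

/-- powers -/
lemma pw {u : ℤ} (hu : 1 ≤ u) (n : ℕ) : ∃ T U T1 U1 : ℤ, ∀ s : ℝ, s ^ 2 = 1 →
    2 * Lam u s ^ n = T + s * U * rt u ∧ 2 * Lam u s ^ (n + 1) = T1 + s * U1 * rt u := by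
  induction n with
  | zero =>
    refine ⟨2, 0, 3 * u, 1, fun s hs => ⟨by simp, ?_⟩⟩
    unfold Lam rt
    push_cast
    ring
  | succ n ih =>
    obtain ⟨T, U, T1, U1, h⟩ := ih
    refine ⟨T1, U1, 3 * u * T1 - T, 3 * u * U1 - U, fun s hs => ⟨(h s hs).2, ?_⟩⟩
    have h1 : 2 * Lam u s ^ (n + 1 + 1) = 3 * u * (2 * Lam u s ^ (n + 1)) - 2 * Lam u s ^ n := by
      rw [pow_succ, pow_succ, mul_assoc (Lam u s ^ n), ← pow_two, lam_sq hu hs]
      ring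
    rw [h1, (h s hs).1, (h s hs).2]
    push_cast
    ring

lemma wg2 (u i j : ℤ) (s : ℝ) :
    2 * Wg u i j s = ((3 * u * (i + j) : ℤ) : ℝ) + s * ((i - j : ℤ) : ℝ) * rt u := by
  unfold Wg Lam rt
  push_cast
  ring

lemma mulrep {p q T U s w D : ℝ} (hs : s ^ 2 = 1) (hw : w ^ 2 = D) :
    (p + s * q * w) * (T + s * U * w) = (p * T + q * U * D) + s * (p * U + q * T) * w := by
  subst hw
  linear_combination (q * U * w ^ 2) * hs

/-- integers whose square is a multiple of a square -/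
lemma sqz {E : ℤ} (hE : ¬ ∃ k : ℤ, k ^ 2 = E) {x y : ℤ} (h : x ^ 2 = E * y ^ 2) :
    y = 0 ∧ x = 0 := by
  have hy : y = 0 := by
    by_contra hy
    have h1 : y ^ 2 ∣ x ^ 2 := ⟨E, by rw [h]; ring⟩
    rw [Int.pow_dvd_pow_iff two_ne_zero] at h1
    obtain ⟨k, rfl⟩ := h1
    apply hE
    refine ⟨k, ?_⟩
    have h2 : y ^ 2 ≠ 0 := pow_ne_zero 2 hy
    apply mul_right_cancel₀ h2
    linear_combination h
  refine ⟨hy, ?_⟩
  rw [hy] at h
  simpa using h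

lemma notsq {u : ℤ} (hu : 1 ≤ u) : ¬ ∃ k : ℤ, k ^ 2 = 9 * u ^ 2 - 4 := by
  rintro ⟨k, hk⟩
  have h1 : |k| ^ 2 = 9 * u ^ 2 - 4 := by rw [sq_abs]; exact hk
  have h0 := abs_nonneg k
  have h2 : |k| < 3 * u := by nlinarith
  have h3 : 3 * u - 1 < |k| := by nlinarith
  omega

/-- linear independence of `1` and the root -/
lemma ind2 {u : ℤ} (hu : 1 ≤ u) {a b : ℤ} (h : (a : ℝ) + b * rt u = 0) : a = 0 ∧ b = 0 := by
  have h1 : a ^ 2 = (9 * u ^ 2 - 4) * b ^ 2 := by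
    have h2 := rt_sq hu
    have h3 : (a : ℝ) ^ 2 = (9 * (u : ℝ) ^ 2 - 4) * (b : ℝ) ^ 2 := by
      have : (a : ℝ) = -(b * rt u) := by linarith
      rw [this, ← h2]; ring
    exact_mod_cast h3
  exact (sqz (notsq hu) h1).symm

/-- linear independence -/
lemma ind4 {u u' : ℤ} (hu : 1 ≤ u) (hu' : 1 ≤ u')
    (hn : ¬ ∃ k : ℤ, k ^ 2 = (9 * u ^ 2 - 4) * (9 * u' ^ 2 - 4)) {a0 a1 a2 a3 : ℤ}
    (h : (a0 : ℝ) + a1 * rt u + a2 * rt u' + a3 * (rt u * rt u') = 0) :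
    a0 = 0 ∧ a1 = 0 ∧ a2 = 0 ∧ a3 = 0 := by
  have hw := rt_sq hu
  have hw' := rt_sq hu'
  have e1 : ((a0 ^ 2 + (9 * u' ^ 2 - 4) * a2 ^ 2 - (9 * u ^ 2 - 4) * (a1 ^ 2 + (9 * u' ^ 2 - 4) * a3 ^ 2) : ℤ) : ℝ)
      + ((2 * (a0 * a2 - (9 * u ^ 2 - 4) * a1 * a3) : ℤ) : ℝ) * rt u' = 0 := by
    push_cast
    rw [← hw, ← hw']
    linear_combination (a0 + a2 * rt u' - rt u * (a1 + a3 * rt u')) * h
  have e2 : ((a0 ^ 2 + (9 * u ^ 2 - 4) * a1 ^ 2 - (9 * u' ^ 2 - 4) * (a2 ^ 2 + (9 * u ^ 2 - 4) * a3 ^ 2) : ℤ) : ℝ)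
      + ((2 * (a0 * a1 - (9 * u' ^ 2 - 4) * a2 * a3) : ℤ) : ℝ) * rt u = 0 := by
    push_cast
    rw [← hw, ← hw']
    linear_combination (a0 + a1 * rt u - rt u' * (a2 + a3 * rt u)) * h
  have f1 := (ind2 hu' e1).1
  have f2 := (ind2 hu e2).1
  have g1 : a0 ^ 2 = ((9 * u ^ 2 - 4) * (9 * u' ^ 2 - 4)) * a3 ^ 2 := by linarith
  obtain ⟨h3, h0⟩ := sqz hn g1
  subst h3 h0
  have g2 : ((9 * u' ^ 2 - 4) * a2) ^ 2 = ((9 * u ^ 2 - 4) * (9 * u' ^ 2 - 4)) * a1 ^ 2 := by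
    linear_combination (9 * u' ^ 2 - 4) * f1
  obtain ⟨h1, h2⟩ := sqz hn g2
  have h4 : (9 * u' ^ 2 - 4 : ℤ) ≠ 0 := by nlinarith
  exact ⟨rfl, h1, (mul_eq_zero.1 h2).resolve_left h4, rfl⟩

lemma int_zero {z : ℤ} (h : |(z : ℝ)| < 1) : z = 0 := by
  have : |z| < 1 := by exact_mod_cast h
  exact Int.abs_lt_one_iff.1 this

/-- sizes -/
lemma lam_bd {u : ℤ} (hu : 1 ≤ u) {s : ℝ} (hs : s = 1 ∨ s = -1) {Z : ℝ} (hZ : 10 ≤ Z)
    (h1 : la u ≤ Z) : 0 < Lam u s ∧ Lam u s ≤ Z ∧ 0 < Lam u (-s) ∧ Lam u (-s) ≤ Z := by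
  have h2 := la_gt hu
  have h3 : (la u)⁻¹ ≤ 1 := inv_le_one_of_one_le₀ h2.le
  have h4 : 0 < (la u)⁻¹ := by positivity
  rcases hs with rfl | rfl
  · rw [← lam_one, ← lam_inv hu]
    exact ⟨by linarith, h1, h4, by linarith⟩
  · rw [neg_neg, ← lam_one, ← lam_inv hu]
    exact ⟨h4, by linarith, by linarith, h1⟩

lemma pow_bd {u : ℤ} (hu : 1 ≤ u) {s : ℝ} (hs : s = 1 ∨ s = -1) {Z : ℝ} (hZ : 10 ≤ Z) {n : ℕ}
    (h1 : la u ^ n ≤ Z) : 0 < Lam u s ^ n ∧ Lam u s ^ n ≤ Z := by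
  have h2 := la_gt hu
  have h3 : (la u)⁻¹ ≤ 1 := inv_le_one_of_one_le₀ h2.le
  have h4 : 0 < (la u)⁻¹ := by positivity
  rcases hs with rfl | rfl
  · rw [← lam_one]
    exact ⟨by positivity, h1⟩
  · rw [← lam_inv hu]
    exact ⟨by positivity, (pow_le_one₀ h4.le h3).trans (by linarith)⟩

lemma wg_bd {u i j : ℤ} (hu : 1 ≤ u) {s : ℝ} (hs : s = 1 ∨ s = -1) {Z : ℝ} (hZ : 10 ≤ Z)
    (h1 : la u ≤ Z) (hi : 1 ≤ i) (hj : 1 ≤ j) (hi' : (i : ℝ) ≤ Z) (hj' : (j : ℝ) ≤ Z) :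
    0 < Wg u i j s ∧ Wg u i j s ≤ 2 * Z ^ 2 := by
  obtain ⟨a, b, c, d⟩ := lam_bd hu hs hZ h1
  have hi0 : (0 : ℝ) < i := by exact_mod_cast (by omega : 0 < i)
  have hj0 : (0 : ℝ) < j := by exact_mod_cast (by omega : 0 < j)
  unfold Wg
  refine ⟨by positivity, ?_⟩
  have e1 : (i : ℝ) * Lam u s ≤ Z * Z := mul_le_mul hi' b a.le (by linarith)
  have e2 : (j : ℝ) * Lam u (-s) ≤ Z * Z := mul_le_mul hj' d c.le (by linarith)
  nlinarith

/-- the general product -/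
noncomputable def XX (u u' i1 j1 i2 j2 i1' j1' i2' j2' : ℤ) (a b : ℕ) (s s' : ℝ) : ℝ :=
  Wg u i1 j1 s * Wg u' i2' j2' s' * Lam u s ^ (2 * a) -
    Wg u i2 j2 s * Wg u' i1' j1' s' * Lam u' s' ^ (2 * b)

lemma xx_rep {u u' : ℤ} (hu : 1 ≤ u) (hu' : 1 ≤ u') (i1 j1 i2 j2 i1' j1' i2' j2' : ℤ) (a b : ℕ) :
    ∃ a0 a1 a2 a3 : ℤ, ∀ s s' : ℝ, s ^ 2 = 1 → s' ^ 2 = 1 →
      8 * XX u u' i1 j1 i2 j2 i1' j1' i2' j2' a b s s' =
        a0 + s * a1 * rt u + s' * a2 * rt u' + s * s' * a3 * (rt u * rt u') := by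
  obtain ⟨T, U, _, _, h1⟩ := pw hu (2 * a)
  obtain ⟨T', U', _, _, h2⟩ := pw hu' (2 * b)
  set p : ℤ := 3 * u * (i1 + j1) with hp
  set q : ℤ := i1 - j1 with hq
  set p' : ℤ := 3 * u' * (i2' + j2') with hp'
  set q' : ℤ := i2' - j2' with hq'
  set p2 : ℤ := 3 * u * (i2 + j2) with hp2
  set q2 : ℤ := i2 - j2 with hq2
  set p2' : ℤ := 3 * u' * (i1' + j1') with hp2'
  set q2' : ℤ := i1' - j1' with hq2'
  set P : ℤ := p * T + q * U * (9 * u ^ 2 - 4) with hP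
  set Q : ℤ := p * U + q * T with hQ
  set P' : ℤ := p2' * T' + q2' * U' * (9 * u' ^ 2 - 4) with hP'
  set Q' : ℤ := p2' * U' + q2' * T' with hQ'
  refine ⟨P * p' - p2 * P', Q * p' - q2 * P', P * q' - p2 * Q', Q * q' - q2 * Q', ?_⟩
  intro s s' hs hs'
  have k1 := (h1 s hs).1
  have k2 := (h2 s' hs').1
  have m1 := wg2 u i1 j1 s
  have m2 := wg2 u' i2' j2' s'
  have m3 := wg2 u i2 j2 s
  have m4 := wg2 u' i1' j1' s'
  have e1 : (2 * Wg u i1 j1 s) * (2 * Lam u s ^ (2 * a)) = P + s * Q * rt u := by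
    rw [m1, k1, mulrep hs (rt_sq hu)]
    simp only [hP, hQ, hp, hq]
    push_cast
    ring
  have e2 : (2 * Wg u' i1' j1' s') * (2 * Lam u' s' ^ (2 * b)) = P' + s' * Q' * rt u' := by
    rw [m4, k2, mulrep hs' (rt_sq hu')]
    simp only [hP', hQ', hp2', hq2']
    push_cast
    ring
  have e3 : 8 * XX u u' i1 j1 i2 j2 i1' j1' i2' j2' a b s s' =
      ((2 * Wg u i1 j1 s) * (2 * Lam u s ^ (2 * a))) * (2 * Wg u' i2' j2' s') -
        (2 * Wg u i2 j2 s) * ((2 * Wg u' i1' j1' s') * (2 * Lam u' s' ^ (2 * b))) := by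
    unfold XX
    ring
  rw [e3, e1, e2, m2, m3]
  push_cast
  simp only [hp', hq', hp2, hq2]
  push_cast
  ring

lemma szlem {l i j : ℝ} (hl : 1 < l) (hi : 0 < i) (hj : 0 < j) :
    i * l⁻¹ + j * l < l ^ 2 * (i * l + j * l⁻¹) := by
  have hl0 : 0 < l := by linarith
  have h1 : l⁻¹ ≤ 1 := inv_le_one_of_one_le₀ hl.le
  have x1 : l ^ 2 * (i * l + j * l⁻¹) = i * l ^ 3 + j * l := by
    field_simp
  rw [x1]
  have h2 : 1 < l ^ 3 := one_lt_pow₀ hl (by norm_num)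
  have h3 : i * l⁻¹ < i * l ^ 3 := mul_lt_mul_of_pos_left (by linarith) hi
  linarith

lemma contra {l W1 V2 W2 V1 : ℝ} {a : ℕ} (hl : 1 < l) (ha : 1 ≤ a) (hW1 : 0 < W1) (hV2 : 0 < V2)
    (hW2 : 0 < W2) (hV1 : 0 < V1) (v1 : V1 < l ^ 2 * W1) (v2 : W2 < l ^ 2 * V2)
    (cross : W1 * l ^ (2 * a) * V2 = W2 * (V1 * l⁻¹ ^ (2 * a))) : False := by
  have hl0 : 0 < l := by linarith
  have v3 : W2 * V1 < (l ^ 2 * V2) * (l ^ 2 * W1) := mul_lt_mul'' v2 v1 hW2.le hV1.le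
  have v4 : l ^ 4 ≤ l ^ (2 * a) * l ^ (2 * a) := by
    rw [← pow_add]
    exact pow_le_pow_right₀ hl.le (by omega)
  have x1 : (l⁻¹) ^ (2 * a) * l ^ (2 * a) = 1 := by
    rw [← mul_pow, inv_mul_cancel₀ hl0.ne', one_pow]
  have v5 : (W1 * V2) * (l ^ (2 * a) * l ^ (2 * a)) = W2 * V1 := by
    calc (W1 * V2) * (l ^ (2 * a) * l ^ (2 * a)) = (W1 * l ^ (2 * a) * V2) * l ^ (2 * a) := by ring
      _ = W2 * (V1 * l⁻¹ ^ (2 * a)) * l ^ (2 * a) := by rw [cross]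
      _ = W2 * V1 * (l⁻¹ ^ (2 * a) * l ^ (2 * a)) := by ring
      _ = W2 * V1 := by rw [x1, mul_one]
  have v6 : 0 < W1 * V2 := mul_pos hW1 hV2
  have v7 := mul_le_mul_of_nonneg_left v4 v6.le
  have v8 : (l ^ 2 * V2) * (l ^ 2 * W1) = (W1 * V2) * l ^ 4 := by ring
  linarith

theorem pair : PAIR := by
  intro u u' i1 j1 i2 j2 i1' j1' i2' j2' a b Z hu hu' ha hb hi1 hj1 hi2 hj2 hi1' hj1' hi2' hj2'
    hZ bi1 bj1 bi2 bj2 bi1' bj1' bi2' bj2' bl bl' bp bp' hsmall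
  have hla := la_gt hu
  have hla' := la_gt hu'
  obtain ⟨a0, a1, a2, a3, hrep⟩ := xx_rep hu hu' i1 j1 i2 j2 i1' j1' i2' j2' a b
  set X := XX u u' i1 j1 i2 j2 i1' j1' i2' j2' a b with hX
  have hXX : WW u i1 j1 * WW u' i2' j2' * la u ^ (2 * a) -
      WW u i2 j2 * WW u' i1' j1' * la u' ^ (2 * b) = X 1 1 := by
    have hWW : ∀ (v i j : ℤ), 1 ≤ v → WW v i j = Wg v i j 1 := by
      intro v i j hv
      unfold WW Wg
      rw [lam_inv hv, ← lam_one]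
    rw [hX]
    unfold XX
    rw [hWW _ _ _ hu, hWW _ _ _ hu, hWW _ _ _ hu', hWW _ _ _ hu', lam_one, lam_one]
  rw [hXX] at hsmall
  have hbd : ∀ s s' : ℝ, (s = 1 ∨ s = -1) → (s' = 1 ∨ s' = -1) → |X s s'| ≤ 4 * Z ^ 5 := by
    intro s s' hs hs'
    have w1 := wg_bd hu hs hZ bl hi1 hj1 bi1 bj1
    have w2 := wg_bd hu' hs' hZ bl' hi2' hj2' bi2' bj2'
    have w3 := wg_bd hu hs hZ bl hi2 hj2 bi2 bj2
    have w4 := wg_bd hu' hs' hZ bl' hi1' hj1' bi1' bj1'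
    have l1 := pow_bd hu hs hZ bp
    have l2 := pow_bd hu' hs' hZ bp'
    have hZ0 : (0 : ℝ) < Z := by linarith
    have q1 : Wg u i1 j1 s * Wg u' i2' j2' s' * Lam u s ^ (2 * a) ≤ 4 * Z ^ 5 := by
      calc Wg u i1 j1 s * Wg u' i2' j2' s' * Lam u s ^ (2 * a) ≤
          (2 * Z ^ 2) * (2 * Z ^ 2) * Z := by
            apply mul_le_mul _ l1.2 l1.1.le (by positivity)
            exact mul_le_mul w1.2 w2.2 w2.1.le (by positivity)
        _ = 4 * Z ^ 5 := by ring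
    have q2 : Wg u i2 j2 s * Wg u' i1' j1' s' * Lam u' s' ^ (2 * b) ≤ 4 * Z ^ 5 := by
      calc Wg u i2 j2 s * Wg u' i1' j1' s' * Lam u' s' ^ (2 * b) ≤
          (2 * Z ^ 2) * (2 * Z ^ 2) * Z := by
            apply mul_le_mul _ l2.2 l2.1.le (by positivity)
            exact mul_le_mul w3.2 w4.2 w4.1.le (by positivity)
        _ = 4 * Z ^ 5 := by ring
    have r1 : 0 < Wg u i1 j1 s * Wg u' i2' j2' s' * Lam u s ^ (2 * a) :=
      mul_pos (mul_pos w1.1 w2.1) l1.1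
    have r2 : 0 < Wg u i2 j2 s * Wg u' i1' j1' s' * Lam u' s' ^ (2 * b) :=
      mul_pos (mul_pos w3.1 w4.1) l2.1
    rw [hX]
    unfold XX
    rw [abs_le]
    constructor <;> linarith
  have hZ0 : (0 : ℝ) < Z := by linarith
  have ht0 : 0 < Z⁻¹ := by positivity
  have ht1 : Z⁻¹ ≤ 1 / 10 := by
    rw [inv_le_comm₀ hZ0 (by norm_num)]
    norm_num
    exact hZ
  have hw := rt_sq hu
  have hw' := rt_sq hu'
  have s1 : (1 : ℝ) ^ 2 = 1 := by norm_num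
  have s2 : (-1 : ℝ) ^ 2 = 1 := by norm_num
  by_cases hn : ∃ n : ℕ, (n : ℤ) ^ 2 = (9 * u ^ 2 - 4) * (9 * u' ^ 2 - 4)
  · refine ⟨?_, hn⟩
    obtain ⟨n, hn⟩ := hn
    have hnr : (n : ℝ) ^ 2 = (9 * (u : ℝ) ^ 2 - 4) * (9 * (u' : ℝ) ^ 2 - 4) := by
      exact_mod_cast hn
    have hww : rt u * rt u' = n := by
      have h1 : (rt u * rt u') ^ 2 = (n : ℝ) ^ 2 := by rw [mul_pow, hw, hw', hnr]
      have h2 : 0 ≤ rt u * rt u' := (mul_pos (rt_pos hu) (rt_pos hu')).le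
      exact (sq_eq_sq₀ h2 (Nat.cast_nonneg n)).1 h1
    have f1 := hrep 1 1 s1 s1
    have f2 := hrep (-1) (-1) s2 s2
    rw [hww] at f1 f2
    have hz : (((a0 + a3 * n) ^ 2 - (a1 ^ 2 * (9 * u ^ 2 - 4) + a2 ^ 2 * (9 * u' ^ 2 - 4) +
        2 * a1 * a2 * n) : ℤ) : ℝ) = (8 * X 1 1) * (8 * X (-1) (-1)) := by
      rw [f1, f2]
      push_cast
      rw [← hw, ← hw', ← hww]
      ring
    have hlt : |(8 * X 1 1) * (8 * X (-1) (-1))| < 1 := by
      rw [show (8 * X 1 1) * (8 * X (-1) (-1)) = 64 * (X 1 1 * X (-1) (-1)) by ring, abs_mul,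
        abs_mul, abs_of_pos (by norm_num : (0 : ℝ) < 64)]
      have b1 := hbd (-1) (-1) (Or.inr rfl) (Or.inr rfl)
      have b2 : |X 1 1| * |X (-1) (-1)| ≤ Z⁻¹ ^ 24 * (4 * Z ^ 5) :=
        mul_le_mul hsmall.le b1 (abs_nonneg _) (by positivity)
      have b3 : Z⁻¹ ^ 24 * (4 * Z ^ 5) = 4 * Z⁻¹ ^ 19 := by
        field_simp
      have b4 : Z⁻¹ ^ 19 ≤ (1 / 10) ^ 19 := pow_le_pow_left₀ ht0.le ht1 19
      rw [b3] at b2
      have b5 : (1 / 10 : ℝ) ^ 19 < 1 / 1000 := by norm_num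
      linarith
    rw [← hz] at hlt
    have hz0 := int_zero hlt
    rw [hz0] at hz
    have h11 : X 1 1 = 0 := by
      have h3 : X 1 1 * X (-1) (-1) = 0 := by
        have : (0 : ℝ) = 64 * (X 1 1 * X (-1) (-1)) := by
          rw [show (64 : ℝ) * (X 1 1 * X (-1) (-1)) = (8 * X 1 1) * (8 * X (-1) (-1)) by ring, ← hz]
          simp
        linarith
      rcases mul_eq_zero.1 h3 with h | h
      · exact h
      · rw [h, mul_zero] at f2
        have g1 : (a1 : ℝ) * rt u + a2 * rt u' = ((a0 + a3 * n : ℤ) : ℝ) := by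
          push_cast
          linarith
        have g2 : ((a1 * (9 * u ^ 2 - 4) + a2 * n : ℤ) : ℝ) +
            ((-(a0 + a3 * n) : ℤ) : ℝ) * rt u = 0 := by
          have : ((-(a0 + a3 * n) : ℤ) : ℝ) = -((a1 : ℝ) * rt u + a2 * rt u') := by
            rw [g1]; push_cast; ring
          rw [this]
          push_cast
          rw [← hw, ← hww]
          ring
        have g3 := (ind2 hu g2).2
        have g4 : a0 + a3 * (n : ℤ) = 0 := by linarith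
        rw [g4] at g1
        have g5 : (a0 : ℝ) + a3 * n = 0 := by exact_mod_cast g4
        push_cast at g1
        have : 8 * X 1 1 = 0 := by
          rw [f1]
          linarith
        linarith
    linarith [hXX]
  · exfalso
    have hn' : ¬ ∃ k : ℤ, k ^ 2 = (9 * u ^ 2 - 4) * (9 * u' ^ 2 - 4) := by
      rintro ⟨k, hk⟩
      exact hn ⟨k.natAbs, by rw [Int.natAbs_sq]; exact hk⟩
    have f1 := hrep 1 1 s1 s1
    have f2 := hrep (-1) 1 s2 s1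
    have f3 := hrep 1 (-1) s1 s2
    have f4 := hrep (-1) (-1) s2 s2
    set M : ℤ := a0 ^ 2 + (9 * u' ^ 2 - 4) * a2 ^ 2 -
      (9 * u ^ 2 - 4) * (a1 ^ 2 + (9 * u' ^ 2 - 4) * a3 ^ 2) with hM
    set N : ℤ := 2 * (a0 * a2 - (9 * u ^ 2 - 4) * a1 * a3) with hN
    have hz : ((M ^ 2 - N ^ 2 * (9 * u' ^ 2 - 4) : ℤ) : ℝ) =
        ((8 * X 1 1) * (8 * X (-1) 1)) * ((8 * X 1 (-1)) * (8 * X (-1) (-1))) := by
      have e1 : (8 * X 1 1) * (8 * X (-1) 1) = M + N * rt u' := by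
        rw [f1, f2, hM, hN]
        push_cast
        rw [← hw, ← hw']
        ring
      have e2 : (8 * X 1 (-1)) * (8 * X (-1) (-1)) = M - N * rt u' := by
        rw [f3, f4, hM, hN]
        push_cast
        rw [← hw, ← hw']
        ring
      rw [e1, e2]
      push_cast
      rw [← hw']
      ring
    have hlt : |((8 * X 1 1) * (8 * X (-1) 1)) * ((8 * X 1 (-1)) * (8 * X (-1) (-1)))| < 1 := by
      rw [show ((8 * X 1 1) * (8 * X (-1) 1)) * ((8 * X 1 (-1)) * (8 * X (-1) (-1))) =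
        4096 * (X 1 1 * (X (-1) 1 * (X 1 (-1) * X (-1) (-1)))) by ring, abs_mul,
        abs_mul, abs_mul, abs_mul, abs_of_pos (by norm_num : (0 : ℝ) < 4096)]
      have b1 := hbd (-1) (-1) (Or.inr rfl) (Or.inr rfl)
      have b2 := hbd 1 (-1) (Or.inl rfl) (Or.inr rfl)
      have b3 := hbd (-1) 1 (Or.inr rfl) (Or.inl rfl)
      have c1 : |X 1 (-1)| * |X (-1) (-1)| ≤ (4 * Z ^ 5) * (4 * Z ^ 5) :=
        mul_le_mul b2 b1 (abs_nonneg _) (by positivity)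
      have c2 : |X (-1) 1| * (|X 1 (-1)| * |X (-1) (-1)|) ≤
          (4 * Z ^ 5) * ((4 * Z ^ 5) * (4 * Z ^ 5)) :=
        mul_le_mul b3 c1 (by positivity) (by positivity)
      have c3 : |X 1 1| * (|X (-1) 1| * (|X 1 (-1)| * |X (-1) (-1)|)) ≤
          Z⁻¹ ^ 24 * ((4 * Z ^ 5) * ((4 * Z ^ 5) * (4 * Z ^ 5))) :=
        mul_le_mul hsmall.le c2 (by positivity) (by positivity)
      have c4 : Z⁻¹ ^ 24 * ((4 * Z ^ 5) * ((4 * Z ^ 5) * (4 * Z ^ 5))) = 64 * Z⁻¹ ^ 9 := by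
        field_simp
        norm_num
      have c5 : Z⁻¹ ^ 9 ≤ (1 / 10) ^ 9 := pow_le_pow_left₀ ht0.le ht1 9
      rw [c4] at c3
      have c6 : (1 / 10 : ℝ) ^ 9 = 1 / 1000000000 := by norm_num
      rw [c6] at c5
      linarith
    rw [← hz] at hlt
    have hz0 := int_zero hlt
    rw [hz0] at hz
    -- some factor is zero, so all coefficients are zero
    have hall : a0 = 0 ∧ a1 = 0 ∧ a2 = 0 ∧ a3 = 0 := by
      have h5 : ((8 * X 1 1) * (8 * X (-1) 1)) * ((8 * X 1 (-1)) * (8 * X (-1) (-1))) = 0 := by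
        rw [← hz]; simp
      have gen : ∀ s s' : ℝ, ∀ t t' : ℤ, (t : ℝ) = s → (t' : ℝ) = s' → t ^ 2 = 1 → t' ^ 2 = 1 →
          (8 * X s s' = a0 + s * a1 * rt u + s' * a2 * rt u' + s * s' * a3 * (rt u * rt u')) →
          8 * X s s' = 0 → a0 = 0 ∧ a1 = 0 ∧ a2 = 0 ∧ a3 = 0 := by
        rintro s s' t t' rfl rfl ht ht' h6 h7
        rw [h7] at h6
        have h8 := ind4 hu hu' hn' (a0 := a0) (a1 := t * a1) (a2 := t' * a2) (a3 := t * t' * a3)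
          (by push_cast; linarith)
        have htn : t ≠ 0 := by rintro rfl; norm_num at ht
        have htn' : t' ≠ 0 := by rintro rfl; norm_num at ht'
        refine ⟨h8.1, (mul_eq_zero.1 h8.2.1).resolve_left htn,
          (mul_eq_zero.1 h8.2.2.1).resolve_left htn',
          (mul_eq_zero.1 h8.2.2.2).resolve_left (mul_ne_zero htn htn')⟩
      rcases mul_eq_zero.1 h5 with h | h
      · rcases mul_eq_zero.1 h with h | h
        · exact gen 1 1 1 1 (by norm_num) (by norm_num) (by norm_num) (by norm_num) f1 h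
        · exact gen (-1) 1 (-1) 1 (by norm_num) (by norm_num) (by norm_num) (by norm_num) f2 h
      · rcases mul_eq_zero.1 h with h | h
        · exact gen 1 (-1) 1 (-1) (by norm_num) (by norm_num) (by norm_num) (by norm_num) f3 h
        · exact gen (-1) (-1) (-1) (-1) (by norm_num) (by norm_num) (by norm_num) (by norm_num)
            f4 h
    obtain ⟨z0, z1, z2, z3⟩ := hall
    have g1 : X 1 1 = 0 := by
      rw [z0, z1, z2, z3] at f1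
      simp at f1
      exact f1
    have g2 : X (-1) 1 = 0 := by
      rw [z0, z1, z2, z3] at f2
      simp at f2
      exact f2
    rw [hX] at g1 g2
    unfold XX at g1 g2
    -- positivity
    have w1 := wg_bd hu (Or.inl rfl : (1 : ℝ) = 1 ∨ (1 : ℝ) = -1) hZ bl hi1 hj1 bi1 bj1
    have w1' := wg_bd hu (Or.inr rfl : (-1 : ℝ) = 1 ∨ (-1 : ℝ) = -1) hZ bl hi1 hj1 bi1 bj1
    have w3 := wg_bd hu (Or.inl rfl : (1 : ℝ) = 1 ∨ (1 : ℝ) = -1) hZ bl hi2 hj2 bi2 bj2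
    have w3' := wg_bd hu (Or.inr rfl : (-1 : ℝ) = 1 ∨ (-1 : ℝ) = -1) hZ bl hi2 hj2 bi2 bj2
    have w2 := wg_bd hu' (Or.inl rfl : (1 : ℝ) = 1 ∨ (1 : ℝ) = -1) hZ bl' hi2' hj2' bi2' bj2'
    have w4 := wg_bd hu' (Or.inl rfl : (1 : ℝ) = 1 ∨ (1 : ℝ) = -1) hZ bl' hi1' hj1' bi1' bj1'
    have l2 := pow_bd hu' (Or.inl rfl : (1 : ℝ) = 1 ∨ (1 : ℝ) = -1) hZ bp'
    have hK : 0 < Wg u' i2' j2' 1 * (Wg u' i1' j1' 1 * Lam u' 1 ^ (2 * b)) :=
      mul_pos w2.1 (mul_pos w4.1 l2.1)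
    have cross : Wg u i1 j1 1 * Lam u 1 ^ (2 * a) * Wg u i2 j2 (-1) =
        Wg u i2 j2 1 * (Wg u i1 j1 (-1) * Lam u (-1) ^ (2 * a)) := by
      apply mul_right_cancel₀ hK.ne'
      have e1 : Wg u i1 j1 1 * Wg u' i2' j2' 1 * Lam u 1 ^ (2 * a) =
        Wg u i2 j2 1 * Wg u' i1' j1' 1 * Lam u' 1 ^ (2 * b) := by linarith
      have e2 : Wg u i1 j1 (-1) * Wg u' i2' j2' 1 * Lam u (-1) ^ (2 * a) =
        Wg u i2 j2 (-1) * Wg u' i1' j1' 1 * Lam u' 1 ^ (2 * b) := by linarith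
      linear_combination (Wg u i2 j2 (-1) * (Wg u' i1' j1' 1 * Lam u' 1 ^ (2 * b))) * e1 -
        (Wg u i2 j2 1 * (Wg u' i1' j1' 1 * Lam u' 1 ^ (2 * b))) * e2
    -- sizes
    set l := la u with hl
    have hL1 : Lam u 1 = l := (lam_one u).symm
    have hL2 : Lam u (-1) = l⁻¹ := (lam_inv hu).symm
    have hl0 : 0 < l := by linarith
    have ri1 : (0 : ℝ) < i1 := by exact_mod_cast (by omega : 0 < i1)
    have rj1 : (0 : ℝ) < j1 := by exact_mod_cast (by omega : 0 < j1)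
    have ri2 : (0 : ℝ) < i2 := by exact_mod_cast (by omega : 0 < i2)
    have rj2 : (0 : ℝ) < j2 := by exact_mod_cast (by omega : 0 < j2)
    have v1 : Wg u i1 j1 (-1) < l ^ 2 * Wg u i1 j1 1 := by
      unfold Wg
      rw [neg_neg, hL1, hL2]
      exact szlem hla ri1 rj1
    have v2 : Wg u i2 j2 1 < l ^ 2 * Wg u i2 j2 (-1) := by
      unfold Wg
      rw [neg_neg, hL1, hL2]
      have := szlem hla rj2 ri2
      linarith
    rw [hL1, hL2] at cross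
    exact contra hla ha w1.1 w3'.1 w3.1 w1'.1 v1 v2 cross

theorem unitsep : UNITSEP := by
  intro u u' a b n hu hu' hn
  have hla := la_gt hu
  have hla' := la_gt hu'
  have hw := rt_sq hu
  have hw' := rt_sq hu'
  have hnr : (n : ℝ) ^ 2 = (9 * (u : ℝ) ^ 2 - 4) * (9 * (u' : ℝ) ^ 2 - 4) := by
    exact_mod_cast hn
  have hww : rt u * rt u' = n := by
    have h1 : (rt u * rt u') ^ 2 = (n : ℝ) ^ 2 := by rw [mul_pow, hw, hw', hnr]
    have h2 : 0 ≤ rt u * rt u' := (mul_pos (rt_pos hu) (rt_pos hu')).le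
    exact (sq_eq_sq₀ h2 (Nat.cast_nonneg n)).1 h1
  obtain ⟨T, U, _, _, h1⟩ := pw hu a
  obtain ⟨T', U', _, _, h2⟩ := pw hu' b
  have p1 := (h1 1 (by norm_num)).1
  have p2 := (h1 (-1) (by norm_num)).1
  have p3 := (h2 1 (by norm_num)).1
  have p4 := (h2 (-1) (by norm_num)).1
  rw [← lam_one] at p1 p3
  rw [← lam_inv hu] at p2
  rw [← lam_inv hu'] at p4
  set x : ℝ := la u ^ a with hx
  set y : ℝ := la u' ^ b with hy
  have hx0 : 0 < x := by positivity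
  have hy0 : 0 < y := by positivity
  rw [inv_pow] at p2 p4
  rw [← hx] at p2
  rw [← hy] at p4
  have key : 2 * (x * y⁻¹ + x⁻¹ * y) = ((T * T' - U * U' * n : ℤ) : ℝ) := by
    push_cast
    rw [← hww]
    linear_combination (1 / 2) * ((2 * y⁻¹) * p1 + (T + 1 * U * rt u) * p4 + (2 * y) * p2 +
      (T + -1 * U * rt u) * p3)
  set v : ℝ := x * y⁻¹ with hv
  have hv0 : 0 < v := by positivity
  have hvi : x⁻¹ * y = v⁻¹ := by
    rw [hv, mul_inv, inv_inv]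
  rw [hvi] at key
  have hlog : a * Real.log (la u) - b * Real.log (la u') = Real.log v := by
    rw [hv, Real.log_mul hx0.ne' (inv_ne_zero hy0.ne'), Real.log_inv, hx, hy, Real.log_pow,
      Real.log_pow]
    ring
  by_cases h1 : v = 1
  · left
    rw [h1, Real.log_one] at hlog
    linarith
  · right
    rw [hlog]
    have hvv : v * v⁻¹ = 1 := mul_inv_cancel₀ hv0.ne'
    have h2 : (4 : ℝ) < ((T * T' - U * U' * n : ℤ) : ℝ) := by
      rw [← key]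
      have h3 : 0 < (v - 1) ^ 2 := by
        have : v - 1 ≠ 0 := sub_ne_zero.2 h1
        positivity
      have h4 : 0 < v⁻¹ := by positivity
      nlinarith
    have h3 : (5 : ℝ) ≤ ((T * T' - U * U' * n : ℤ) : ℝ) := by
      have : (4 : ℤ) < T * T' - U * U' * n := by exact_mod_cast h2
      exact_mod_cast (by omega : (5 : ℤ) ≤ T * T' - U * U' * n)
    rw [← key] at h3
    have h4 : 0 ≤ (v - 2) * (v - 1 / 2) := by
      have h5 : v * (v + v⁻¹) = v ^ 2 + 1 := by rw [mul_add, hvv]; ring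
      nlinarith
    have hl2 : (1 / 2 : ℝ) < Real.log 2 := by
      have := Real.log_two_gt_d9
      linarith
    rcases le_or_gt 2 v with h | h
    · have h6 := Real.log_le_log (by norm_num) h
      exact (by linarith : (1 / 2 : ℝ) ≤ Real.log v).trans (le_abs_self _)
    · have h7 : v ≤ 1 / 2 := by
        by_contra hc
        push Not at hc
        nlinarith
      have h6 := Real.log_le_log hv0 h7
      rw [Real.log_div (by norm_num) (by norm_num), Real.log_one] at h6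
      have h8 := neg_le_abs (Real.log v)
      linarith

end Pool.Agent.N706.MX2P
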