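import Mathlib
import Pool.Agent.N604.MW.Stm10
import Pool.Agent.N749.KW_DSup

/-!
# Project AD (helper604), part ASUP (helper706, after helper749): the bound for the number of tuples
when enough frequencies are large
-/

set_option autoImplicit false

namespace Pool.Agent.N706.ADASup

open Finset MeasureTheory Pool.Agent.N604.MW Pool.Agent.N749.KWDSup

theorem amgm' {ι : Type} (J : Finset ι) {n : ℕ} (hn : n ≠ 0) (hJ : J.card = n) (f : ι → ℝ)
    (hf : ∀ j, 0 ≤ f j) : ∏ j ∈ J, f j ≤ ∑ j ∈ J, (n : ℝ)⁻¹ * f j ^ n := by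
  have hn' : (n : ℝ) ≠ 0 := Nat.cast_ne_zero.2 hn
  have h := Real.geom_mean_le_arith_mean_weighted J (fun _ => (n : ℝ)⁻¹)
    (fun j => f j ^ n) (fun _ _ => by positivity)
    (by rw [Finset.sum_const, hJ, nsmul_eq_mul, mul_inv_cancel₀ hn'])
    (fun j _ => pow_nonneg (hf j) n)
  refine le_trans (le_of_eq ?_) h
  refine Finset.prod_congr rfl fun j _ => ?_
  rw [Real.pow_rpow_inv_natCast (hf j) hn]

theorem gd_le' (m m' k X : ℕ) (hm' : 0 < m') (δ : Fin (2 * m) → ℝ) (J : Finset (Fin (2 * m)))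
    (hJ : J.card = 2 * m') :
    GD (2 * m) k X δ ≤ ((X : ℝ) + 1) ^ (2 * m - 2 * m') *
      ∑ j ∈ J, ((2 * m' : ℕ) : ℝ)⁻¹ * MD m' k X (δ j) := by
  have hn : 2 * m' ≠ 0 := by omega
  have e1 : ∀ a : ℝ, ∏ j, SS k X (δ j) a =
      ∑ x ∈ Fintype.piFinset (fun _ : Fin (2 * m) => Finset.Icc X (2 * X)),
        e (a * ∑ j, δ j * (x j : ℝ) ^ k) := by
    intro a
    unfold SS
    rw [Finset.prod_univ_sum]
    refine Finset.sum_congr rfl fun x _ => ?_
    rw [Finset.mul_sum, e_sum]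
    refine Finset.prod_congr rfl fun j _ => ?_
    rw [mul_assoc]
  have e2 : ∫ a, ∏ j, SS k X (δ j) a ∂G1 = ((GD (2 * m) k X δ : ℝ) : ℂ) := by
    simp only [e1]
    rw [integral_finsetSum]
    · unfold GD
      rw [Complex.ofReal_sum]
      exact Finset.sum_congr rfl fun x _ => int_e _
    · intro x _
      exact integrable_of (e_cont.comp (by fun_prop)) 1 fun a => (e_nrm _).le
  have hpos : 0 ≤ GD (2 * m) k X δ := by
    unfold GD
    exact Finset.sum_nonneg fun x _ => (Real.exp_pos _).le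
  have e3 : GD (2 * m) k X δ = ‖∫ a, ∏ j, SS k X (δ j) a ∂G1‖ := by
    rw [e2, Complex.norm_real, Real.norm_of_nonneg hpos]
  have hb : ∀ j a, ‖SS k X (δ j) a‖ ^ (2 * m') ≤ ((X : ℝ) + 1) ^ (2 * m') := fun j a =>
    pow_le_pow_left₀ (norm_nonneg _) (SS_norm k X (δ j) a) _
  have i1 : ∀ j, Integrable (fun a => ‖SS k X (δ j) a‖ ^ (2 * m')) G1 := fun j =>
    integrable_of ((SS_cont k X (δ j)).norm.pow _) (((X : ℝ) + 1) ^ (2 * m')) fun a => by
      rw [norm_pow, norm_norm]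
      exact hb j a
  have i2 : Integrable (fun a => ∏ j, ‖SS k X (δ j) a‖) G1 := by
    refine integrable_of (continuous_finsetProd _ fun j _ => (SS_cont k X (δ j)).norm)
      (((X : ℝ) + 1) ^ (2 * m)) fun a => ?_
    rw [Real.norm_of_nonneg (Finset.prod_nonneg fun j _ => norm_nonneg _)]
    refine (Finset.prod_le_prod (fun j _ => norm_nonneg _) fun j _ => SS_norm k X (δ j) a).trans ?_
    rw [Finset.prod_const, Finset.card_univ, Fintype.card_fin]
  rw [e3]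
  refine (norm_integral_le_integral_norm _).trans ?_
  simp only [norm_prod]
  have e4 : ∫ a, ((X : ℝ) + 1) ^ (2 * m - 2 * m') *
        ∑ j ∈ J, ((2 * m' : ℕ) : ℝ)⁻¹ * ‖SS k X (δ j) a‖ ^ (2 * m') ∂G1 =
      ((X : ℝ) + 1) ^ (2 * m - 2 * m') * ∑ j ∈ J, ((2 * m' : ℕ) : ℝ)⁻¹ * MD m' k X (δ j) := by
    rw [integral_const_mul, integral_finsetSum _ fun j _ => (i1 j).const_mul _]
    congr 1
    refine Finset.sum_congr rfl fun j _ => ?_
    rw [integral_const_mul]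
    rfl
  rw [← e4]
  refine integral_mono i2 ((integrable_finsetSum _ fun j _ => (i1 j).const_mul _).const_mul _)
    fun a => ?_
  change ∏ j, ‖SS k X (δ j) a‖ ≤ ((X : ℝ) + 1) ^ (2 * m - 2 * m') *
        ∑ j ∈ J, ((2 * m' : ℕ) : ℝ)⁻¹ * ‖SS k X (δ j) a‖ ^ (2 * m')
  rw [← Finset.prod_compl_mul_prod J]
  refine mul_le_mul ?_ (amgm' J hn hJ _ fun j => norm_nonneg _)
    (Finset.prod_nonneg fun j _ => norm_nonneg _) (by positivity)
  refine (Finset.prod_le_prod (fun j _ => norm_nonneg _) fun j _ => SS_norm k X (δ j) a).trans ?_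
  rw [Finset.prod_const, Finset.card_compl, Fintype.card_fin, hJ]

theorem asup (h2 : S_DMV) : S_ASUP := by
  classical
  intro r m k hr hk hn
  obtain ⟨m', hm', hm0, hrm⟩ : ∃ m', nr r = 2 * m' ∧ 0 < m' ∧ r ≤ 2 * m' := by
    refine ⟨2 * r * (r + 2) * 2 ^ (r + 2), ?_, by positivity, ?_⟩
    · unfold nr
      ring
    · have h1 : 1 ≤ 2 * ((r + 2) * 2 ^ (r + 2)) := Nat.one_le_iff_ne_zero.2 (by positivity)
      calc r = r * 1 := (mul_one r).symm
        _ ≤ r * (2 * (2 * ((r + 2) * 2 ^ (r + 2)))) := Nat.mul_le_mul le_rfl (by omega)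
        _ = 2 * (2 * r * (r + 2) * 2 ^ (r + 2)) := by ring
  obtain ⟨C, hC, X0, h⟩ := h2 r m' k hr hk hm'.le
  refine ⟨Real.exp (2 * Real.pi ^ 2) * 2 ^ (2 * m) * C, by positivity, max X0 3, ?_⟩
  intro X γ hX hγ
  have hX3 : (3 : ℝ) ≤ X := by exact_mod_cast (le_max_right _ _).trans hX
  have T1 : 1 ≤ Real.log X := by
    rw [Real.le_log_iff_exp_le (by linarith)]
    have := Real.exp_one_lt_d9
    linarith
  have T0 : 0 < Real.log X := by linarith
  obtain ⟨J, hJ1, hJ2⟩ := Finset.exists_subset_card_eq (hm' ▸ hγ : 2 * m' ≤ NB (2 * m) k r X γ)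
  have hJ3 : ∀ j ∈ J, (X : ℝ) ^ (-(k : ℝ) + r) ≤ |γ j| := fun j hj =>
    (Finset.mem_filter.1 (hJ1 hj)).2
  have s1 := ud_le (2 * m) k X (Real.log X) T0 γ
  have s2 := gd_le' m m' k X hm0 (fun j => γ j / Real.log X) J hJ2
  have s3 : ∀ j ∈ J, MD m' k X (γ j / Real.log X) ≤ C * Real.log X * (X : ℝ) ^ (2 * m' - r) := by
    intro j hj
    refine h X _ ((le_max_left _ _).trans hX) ?_
    rw [abs_div, abs_of_pos T0]
    exact div_le_div_of_nonneg_right (hJ3 j hj) T0.le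
  have s4 : ∑ j ∈ J, ((2 * m' : ℕ) : ℝ)⁻¹ * MD m' k X (γ j / Real.log X) ≤
      C * Real.log X * (X : ℝ) ^ (2 * m' - r) := by
    calc ∑ j ∈ J, ((2 * m' : ℕ) : ℝ)⁻¹ * MD m' k X (γ j / Real.log X)
        ≤ ∑ _j ∈ J, ((2 * m' : ℕ) : ℝ)⁻¹ * (C * Real.log X * (X : ℝ) ^ (2 * m' - r)) :=
          Finset.sum_le_sum fun j hj => mul_le_mul_of_nonneg_left (s3 j hj) (by positivity)
      _ = C * Real.log X * (X : ℝ) ^ (2 * m' - r) := by
          rw [Finset.sum_const, hJ2, nsmul_eq_mul, ← mul_assoc,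
            mul_inv_cancel₀ (by positivity), one_mul]
  have hle : 2 * m' ≤ 2 * m := hm' ▸ hn
  have s5 : ((X : ℝ) + 1) ^ (2 * m - 2 * m') ≤ 2 ^ (2 * m) * (X : ℝ) ^ (2 * m - 2 * m') := by
    calc ((X : ℝ) + 1) ^ (2 * m - 2 * m') ≤ (2 * (X : ℝ)) ^ (2 * m - 2 * m') :=
          pow_le_pow_left₀ (by positivity) (by linarith) _
      _ = 2 ^ (2 * m - 2 * m') * (X : ℝ) ^ (2 * m - 2 * m') := mul_pow _ _ _
      _ ≤ 2 ^ (2 * m) * (X : ℝ) ^ (2 * m - 2 * m') := by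
          refine mul_le_mul_of_nonneg_right ?_ (by positivity)
          exact pow_le_pow_right₀ (by norm_num) (Nat.sub_le _ _)
  have s6 : (X : ℝ) ^ (2 * m - 2 * m') * (X : ℝ) ^ (2 * m' - r) = (X : ℝ) ^ (2 * m - r) := by
    rw [← pow_add]
    congr 1
    omega
  have hnn : 0 ≤ C * Real.log X * (X : ℝ) ^ (2 * m' - r) := by positivity
  calc UD (2 * m) k X (Real.log X) γ ≤ Real.exp (2 * Real.pi ^ 2) *
        GD (2 * m) k X fun j => γ j / Real.log X := s1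
    _ ≤ Real.exp (2 * Real.pi ^ 2) * ((2 ^ (2 * m) * (X : ℝ) ^ (2 * m - 2 * m')) *
          (C * Real.log X * (X : ℝ) ^ (2 * m' - r))) := by
        refine mul_le_mul_of_nonneg_left (s2.trans ?_) (Real.exp_pos _).le
        exact mul_le_mul s5 s4 (Finset.sum_nonneg fun j _ => mul_nonneg (by positivity)
          (integral_nonneg fun a => by positivity)) (by positivity)
    _ = Real.exp (2 * Real.pi ^ 2) * 2 ^ (2 * m) * C * Real.log X *
          ((X : ℝ) ^ (2 * m - 2 * m') * (X : ℝ) ^ (2 * m' - r)) := by ring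
    _ = Real.exp (2 * Real.pi ^ 2) * 2 ^ (2 * m) * C * Real.log X * (X : ℝ) ^ (2 * m - r) := by
        rw [s6]

end Pool.Agent.N706.ADASup

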