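import Pool.Agent.N804.LI.Stm

set_option autoImplicit false

/-!
# LI/EXP (helper706): the mean value of the exponential of a trigonometric series
-/

namespace Pool.Agent.N706.LI1

open Filter Topology MeasureTheory Pool.Agent.N804.LI

/-- the power of a sum -/
lemma pow_sum {K : Type} (u : K → ℂ) (hu : Summable fun k => ‖u k‖) (n : ℕ) :
    (Summable fun v : Fin n → K => ‖∏ i, u (v i)‖) ∧
      ∑' v : Fin n → K, ∏ i, u (v i) = (∑' k, u k) ^ n := by
  induction n with
  | zero =>
    refine ⟨(hasSum_fintype _).summable, ?_⟩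
    rw [tsum_fintype]
    simp
  | succ n ih =>
    obtain ⟨h1, h2⟩ := ih
    have h3 : (Summable fun x : K × (Fin n → K) => ‖u x.1 * ∏ i, u (x.2 i)‖) :=
      Summable.mul_norm (f := u) (g := fun v : Fin n → K => ∏ i, u (v i)) hu h1
    set e : K × (Fin n → K) ≃ (Fin (n + 1) → K) := Fin.consEquiv (fun _ => K) with he
    have h4 : ∀ x : K × (Fin n → K), ∏ i, u (e x i) = u x.1 * ∏ i, u (x.2 i) := by
      intro x
      rw [Fin.prod_univ_succ]
      rfl
    constructor
    · rw [← e.summable_iff]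
      refine h3.congr fun x => ?_
      rw [Function.comp_apply, h4]
    · rw [← e.tsum_eq]
      simp_rw [h4]
      rw [← tsum_mul_tsum_of_summable_norm hu h1, h2, pow_succ']

/-- absolute summability of the words and the exponential -/
lemma words {K : Type} (u : K → ℂ) (hu : Summable fun k => ‖u k‖) {κ : ℝ} (hκ : 0 ≤ κ) :
    (Summable fun p : Wd K => κ ^ p.1 / (p.1).factorial * ∏ i, ‖u (p.2 i)‖) ∧
      HasSum (fun p : Wd K => ((κ ^ p.1 / (p.1).factorial : ℝ) : ℂ) * ∏ i, u (p.2 i))
        (Complex.exp (κ * ∑' k, u k)) := by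
  have hr : Summable fun k => ‖((‖u k‖ : ℝ) : ℂ)‖ := by
    refine hu.congr fun k => ?_
    rw [Complex.norm_real, norm_norm]
  have hA : Summable fun p : Wd K => κ ^ p.1 / (p.1).factorial * ∏ i, ‖u (p.2 i)‖ := by
    rw [summable_sigma_of_nonneg]
    · constructor
      · intro n
        refine ((pow_sum u hu n).1.mul_left (κ ^ n / n.factorial)).congr fun v => ?_
        rw [norm_prod]
      · have h1 : ∀ n : ℕ, ∑' v : Fin n → K, κ ^ n / n.factorial * ∏ i, ‖u (v i)‖ =
            (κ * ∑' k, ‖u k‖) ^ n / n.factorial := by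
          intro n
          rw [tsum_mul_left]
          have h2 := (pow_sum (fun k => ((‖u k‖ : ℝ) : ℂ)) hr n).2
          have h3 : ∑' v : Fin n → K, ∏ i, ‖u (v i)‖ = (∑' k, ‖u k‖) ^ n := by
            have h4 : ((∑' v : Fin n → K, ∏ i, ‖u (v i)‖ : ℝ) : ℂ) =
                (((∑' k, ‖u k‖) ^ n : ℝ) : ℂ) := by
              push_cast
              rw [← h2]
            exact_mod_cast h4
          rw [h3, mul_pow]
          ring
        simp_rw [h1]
        exact Real.summable_pow_div_factorial _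
    · intro p
      positivity
  have hB : Summable fun p : Wd K => ((κ ^ p.1 / (p.1).factorial : ℝ) : ℂ) * ∏ i, u (p.2 i) := by
    refine Summable.of_norm (hA.congr fun p => ?_)
    rw [norm_mul, Complex.norm_real, norm_prod, Real.norm_of_nonneg (by positivity)]
  refine ⟨hA, ?_⟩
  have hC : ∑' p : Wd K, ((κ ^ p.1 / (p.1).factorial : ℝ) : ℂ) * ∏ i, u (p.2 i) =
      Complex.exp (κ * ∑' k, u k) := by
    have hB' : ∀ n : ℕ, Summable fun v : Fin n → K =>
        ((κ ^ n / n.factorial : ℝ) : ℂ) * ∏ i, u (v i) := fun n =>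
      (Summable.of_norm (pow_sum u hu n).1).mul_left _
    rw [Summable.tsum_sigma' hB' hB, Complex.exp_eq_exp_ℂ, NormedSpace.exp_eq_tsum_div]
    refine tsum_congr fun n => ?_
    show ∑' v : Fin n → K, ((κ ^ n / n.factorial : ℝ) : ℂ) * ∏ i, u (v i) =
      ((κ : ℂ) * ∑' k, u k) ^ n / n.factorial
    rw [tsum_mul_left, (pow_sum u hu n).2, mul_pow]
    push_cast
    ring
  rw [← hC]
  exact hB.hasSum

/-- the terms -/
noncomputable def tm {K : Type} (θ w : K → ℝ) (κ : ℝ) (p : Wd K) (y : ℝ) : ℂ :=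
  (ww w κ p : ℂ) * Complex.exp (((ws θ p * y : ℝ) : ℂ) * Complex.I)

lemma tm_sum {K : Type} (θ w : K → ℝ) {κ : ℝ} (hκ : 0 ≤ κ) (hw : ∀ k, 0 ≤ w k)
    (hs : Summable w) (y : ℝ) : Summable (ww w κ) ∧ HasSum (fun p => tm θ w κ p y)
      (Complex.exp ((κ : ℂ) * ∑' k, (w k : ℂ) * Complex.exp (((θ k * y : ℝ) : ℂ) * Complex.I))) := by
  have hn : ∀ k, ‖(w k : ℂ) * Complex.exp (((θ k * y : ℝ) : ℂ) * Complex.I)‖ = w k := by
    intro k
    rw [norm_mul, Complex.norm_exp_ofReal_mul_I, mul_one, Complex.norm_real,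
      Real.norm_of_nonneg (hw k)]
  have h1 := words (fun k => (w k : ℂ) * Complex.exp (((θ k * y : ℝ) : ℂ) * Complex.I))
    (hs.congr fun k => (hn k).symm) hκ
  refine ⟨h1.1.congr fun p => ?_, ?_⟩
  · unfold ww
    congr 1
    exact Finset.prod_congr rfl fun i _ => hn _
  · convert h1.2 using 1
    funext p
    unfold tm ww ws
    rw [Finset.prod_mul_distrib, ← Complex.exp_sum]
    push_cast
    rw [mul_assoc]
    congr 3
    rw [Finset.sum_mul, Finset.sum_mul]

/-- the means -/
noncomputable def mn (a Y : ℝ) : ℂ :=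
  (1 / (Y : ℂ)) * ∫ y in (0 : ℝ)..Y, Complex.exp (((a * y : ℝ) : ℂ) * Complex.I)

lemma mn_le (a : ℝ) {Y : ℝ} (hY : 0 < Y) : ‖mn a Y‖ ≤ 1 := by
  unfold mn
  have h1 : ‖∫ y in (0 : ℝ)..Y, Complex.exp (((a * y : ℝ) : ℂ) * Complex.I)‖ ≤ 1 * |Y - 0| :=
    intervalIntegral.norm_integral_le_of_norm_le_const fun y _ => by
      rw [Complex.norm_exp_ofReal_mul_I]
  rw [sub_zero, one_mul, abs_of_pos hY] at h1
  rw [norm_mul, norm_div, norm_one, Complex.norm_real, Real.norm_of_nonneg hY.le, one_div]
  calc Y⁻¹ * ‖∫ y in (0 : ℝ)..Y, Complex.exp (((a * y : ℝ) : ℂ) * Complex.I)‖ ≤ Y⁻¹ * Y :=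
        mul_le_mul_of_nonneg_left h1 (by positivity)
    _ = 1 := inv_mul_cancel₀ hY.ne'

open Classical in
lemma mn_tend (a : ℝ) : Tendsto (mn a) atTop (𝓝 (if a = 0 then 1 else 0)) := by
  by_cases ha : a = 0
  · rw [if_pos ha]
    subst ha
    refine tendsto_const_nhds.congr' ?_
    filter_upwards [eventually_gt_atTop 0] with Y hY
    unfold mn
    have hY' : (Y : ℂ) ≠ 0 := by exact_mod_cast hY.ne'
    simp [hY']
  · rw [if_neg ha]
    rw [tendsto_zero_iff_norm_tendsto_zero]
    have h0 : Tendsto (fun Y : ℝ => (2 / |a|) * Y⁻¹) atTop (𝓝 0) := by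
      have := (tendsto_inv_atTop_zero (𝕜 := ℝ)).const_mul (2 / |a|)
      rwa [mul_zero] at this
    refine squeeze_zero' (Eventually.of_forall fun Y => norm_nonneg _) ?_ h0
    filter_upwards [eventually_gt_atTop 0] with Y hY
    have hc : (a : ℂ) * Complex.I ≠ 0 := mul_ne_zero (by exact_mod_cast ha) Complex.I_ne_zero
    have h1 : ∫ y in (0 : ℝ)..Y, Complex.exp (((a * y : ℝ) : ℂ) * Complex.I) =
        (Complex.exp (((a : ℂ) * Complex.I) * Y) - Complex.exp (((a : ℂ) * Complex.I) * (0 : ℝ))) /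
          ((a : ℂ) * Complex.I) := by
      rw [← integral_exp_mul_complex hc]
      refine intervalIntegral.integral_congr fun y _ => ?_
      congr 1
      push_cast
      ring
    unfold mn
    rw [h1, norm_mul, norm_div, norm_one, Complex.norm_real, Real.norm_of_nonneg hY.le, norm_div,
      norm_mul, Complex.norm_I, mul_one, Complex.norm_real, Real.norm_eq_abs]
    have h2 : ‖Complex.exp (((a : ℂ) * Complex.I) * Y) -
        Complex.exp (((a : ℂ) * Complex.I) * (0 : ℝ))‖ ≤ 2 := by
      refine (norm_sub_le _ _).trans ?_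
      have e1 : ((a : ℂ) * Complex.I) * Y = ((a * Y : ℝ) : ℂ) * Complex.I := by push_cast; ring
      have e2 : ((a : ℂ) * Complex.I) * (0 : ℝ) = ((0 : ℝ) : ℂ) * Complex.I := by push_cast; ring
      rw [e1, e2, Complex.norm_exp_ofReal_mul_I, Complex.norm_exp_ofReal_mul_I]
      norm_num
    have ha' : 0 < |a| := abs_pos.2 ha
    rw [one_div, mul_comm]
    exact mul_le_mul_of_nonneg_right (div_le_div_of_nonneg_right h2 ha'.le) (by positivity)

open Classical in
theorem main : S_EXP := by
  intro K θ w κ hκ hw hs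
  have hww := (tm_sum θ w hκ hw hs 0).1
  have hww0 : ∀ p, 0 ≤ ww w κ p := fun p => by
    unfold ww
    have : 0 ≤ ∏ i, w (p.2 i) := Finset.prod_nonneg fun i _ => hw _
    positivity
  refine ⟨hww, ?_⟩
  set f : ℝ → ℂ := fun y => Complex.exp ((κ : ℂ) * ∑' k, (w k : ℂ) *
    Complex.exp (((θ k * y : ℝ) : ℂ) * Complex.I)) with hf
  -- termwise integration
  have hint : ∀ Y : ℝ, (1 / (Y : ℂ)) * ∫ y in (0 : ℝ)..Y, f y =
      ∑' p : Wd K, (ww w κ p : ℂ) * mn (ws θ p) Y := by
    intro Y
    have hcount : (Function.support (ww w κ)).Countable := hww.countable_support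
    have : Countable (Function.support (ww w κ)) := hcount.to_subtype
    have h1 : HasSum (fun p : Function.support (ww w κ) => ∫ y in (0 : ℝ)..Y, tm θ w κ p y)
        (∫ y in (0 : ℝ)..Y, f y) := by
      refine intervalIntegral.hasSum_integral_of_dominated_convergence
        (fun p _ => ww w κ (p : Wd K)) ?_ ?_ ?_ ?_ ?_
      · intro p
        have : Continuous (tm θ w κ (p : Wd K)) := by
          unfold tm
          fun_prop
        exact this.aestronglyMeasurable
      · intro p
        refine Eventually.of_forall fun t _ => ?_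
        unfold tm
        rw [norm_mul, Complex.norm_exp_ofReal_mul_I, mul_one, Complex.norm_real,
          Real.norm_of_nonneg (hww0 _)]
      · exact Eventually.of_forall fun t _ => hww.subtype _
      · exact intervalIntegrable_const
      · refine Eventually.of_forall fun t _ => ?_
        have h2 := (tm_sum θ w hκ hw hs t).2
        have h3 : Function.support (fun p => tm θ w κ p t) ⊆ Function.support (ww w κ) := by
          intro p hp h0
          apply hp
          have h0' : ww w κ p = 0 := h0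
          show tm θ w κ p t = 0
          unfold tm
          rw [h0']
          simp
        exact (hasSum_subtype_iff_of_support_subset h3).2 h2
    have h4 : HasSum (fun p : Wd K => ∫ y in (0 : ℝ)..Y, tm θ w κ p y)
        (∫ y in (0 : ℝ)..Y, f y) := by
      have h3 : Function.support (fun p => ∫ y in (0 : ℝ)..Y, tm θ w κ p y) ⊆
          Function.support (ww w κ) := by
        intro p hp h0
        apply hp
        have h0' : ww w κ p = 0 := h0
        show ∫ y in (0 : ℝ)..Y, tm θ w κ p y = 0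
        unfold tm
        rw [h0']
        simp
      exact (hasSum_subtype_iff_of_support_subset h3).1 h1
    rw [← h4.tsum_eq, ← tsum_mul_left]
    refine tsum_congr fun p => ?_
    unfold tm mn
    rw [intervalIntegral.integral_const_mul]
    ring
  have hlim : Tendsto (fun Y : ℝ => ∑' p : Wd K, (ww w κ p : ℂ) * mn (ws θ p) Y) atTop
      (𝓝 (∑' p : Wd K, (ww w κ p : ℂ) * (if ws θ p = 0 then 1 else 0))) := by
    refine tendsto_tsum_of_dominated_convergence hww (fun p => (mn_tend (ws θ p)).const_mul _) ?_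
    filter_upwards [eventually_gt_atTop 0] with Y hY p
    rw [norm_mul, Complex.norm_real, Real.norm_of_nonneg (hww0 p)]
    calc ww w κ p * ‖mn (ws θ p) Y‖ ≤ ww w κ p * 1 :=
          mul_le_mul_of_nonneg_left (mn_le _ hY) (hww0 p)
      _ = ww w κ p := mul_one _
  have e : (∑' p : Wd K, if ws θ p = 0 then (ww w κ p : ℂ) else 0) =
      ∑' p : Wd K, (ww w κ p : ℂ) * (if ws θ p = 0 then 1 else 0) := by
    refine tsum_congr fun p => ?_
    split_ifs <;> simp
  rw [e]
  refine hlim.congr fun Y => ?_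
  rw [← hint Y]

end Pool.Agent.N706.LI1
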